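import Pool.Agent.H48.RN.Stmts3

/-!
# Project RN, module SY3: the Legendre symbol `(D / P)` as a character of `P`
-/

set_option autoImplicit false

namespace Pool.RN

open Polynomial

section

variable {F : Type} [Field F]

/-- The resultant with a monic polynomial, as a function of the second argument. -/
noncomputable def SY3_r (D f : F[X]) : F := resultant D f D.natDegree f.natDegree

lemma SY3_r_of_le {D : F[X]} (hD : D.Monic) {f : F[X]} {n : ℕ} (hn : f.natDegree ≤ n) :
    resultant D f D.natDegree n = SY3_r D f := by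
  obtain ⟨k, rfl⟩ := Nat.exists_eq_add_of_le hn
  rw [resultant_add_right_deg _ _ _ _ _ le_rfl, coeff_natDegree, hD.leadingCoeff, one_pow, one_mul]
  rfl

lemma SY3_r_mul {D : F[X]} (hD : D.Monic) (f g : F[X]) :
    SY3_r D (f * g) = SY3_r D f * SY3_r D g := by
  have h1 := resultant_mul_right D f g D.natDegree le_rfl
  rw [SY3_r_of_le hD natDegree_mul_le] at h1
  exact h1

lemma SY3_r_one (D : F[X]) : SY3_r D 1 = 1 := by
  unfold SY3_r
  simp

lemma SY3_r_congr {D : F[X]} (hD : D.Monic) {f g : F[X]} (h : D ∣ f - g) :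
    SY3_r D f = SY3_r D g := by
  obtain ⟨p, hp⟩ := h
  set n := max (max f.natDegree g.natDegree) (p.natDegree + D.natDegree) with hn
  rw [← SY3_r_of_le hD (n := n) (le_trans (le_max_left _ _) (le_max_left _ _)),
    ← SY3_r_of_le hD (f := g) (n := n) (le_trans (le_max_right _ _) (le_max_left _ _))]
  have h1 : f = g + D * p := by rw [← hp]; ring
  rw [h1]
  exact resultant_add_mul_right _ _ _ _ _ (le_max_right _ _) le_rfl

lemma SY3_r_ne {D : F[X]} (hD : D.Monic) {f : F[X]} (h : IsCoprime D f) : SY3_r D f ≠ 0 :=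
  (isUnit_resultant_iff_isCoprime hD).2 h |>.ne_zero

/-- the norm as a resultant -/
lemma SY3_norm [Fintype F] {P : F[X]} (hP : P.Monic) (hirr : Irreducible P) (D : F[X]) :
    resultant P D P.natDegree D.natDegree = Algebra.norm F (AdjoinRoot.mk P D) := by
  classical
  have : Fact (Irreducible P) := ⟨hirr⟩
  have : FiniteDimensional F (AdjoinRoot P) := (AdjoinRoot.powerBasis hP.ne_zero).finite
  set Ω := AlgebraicClosure F
  apply (algebraMap F Ω).injective
  have h1 := resultant_eq_prod_eval (P.map (algebraMap F Ω)) (D.map (algebraMap F Ω))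
    D.natDegree natDegree_map_le (IsAlgClosed.splits _)
  rw [natDegree_map, resultant_map_map, leadingCoeff_map, hP.leadingCoeff, map_one, one_pow,
    one_mul] at h1
  rw [h1, Algebra.norm_eq_prod_embeddings (K := F) (L := AdjoinRoot P) Ω (AdjoinRoot.mk P D)]
  have h2 : ∏ σ : AdjoinRoot P →ₐ[F] Ω, σ (AdjoinRoot.mk P D) =
      ∏ x : {x // x ∈ P.aroots Ω}, aeval x.1 D := by
    refine Fintype.prod_equiv (AdjoinRoot.equiv Ω F P hP.ne_zero) _ _ ?_
    intro σ
    have h3 : ((AdjoinRoot.equiv Ω F P hP.ne_zero) σ).1 = σ (AdjoinRoot.root P) := rfl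
    rw [h3, ← AdjoinRoot.aeval_eq, aeval_algHom_apply]
  rw [h2, Finset.prod_mem_multiset (P.aroots Ω) (fun x => aeval x.1 D) (fun x => aeval x D)
    (fun x => rfl), Finset.prod_eq_multiset_prod, Multiset.toFinset_val,
    Multiset.dedup_eq_self.mpr (nodup_aroots_iff_of_splits hP.ne_zero (IsAlgClosed.splits _)
      |>.2 ((PerfectField.separable_of_irreducible hirr)))]
  congr 1
  apply Multiset.map_congr rfl
  intro x _
  rw [eval_map_algebraMap]

/-- squares in the residue field and norms -/
lemma SY3_square [Fintype F] (h2 : (2 : F) ≠ 0) {P : F[X]} (hP : P.Monic) (hirr : Irreducible P)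
    {a : AdjoinRoot P} (ha : a ≠ 0) : IsSquare a ↔ IsSquare (Algebra.norm F a) := by
  classical
  have : Fact (Irreducible P) := ⟨hirr⟩
  have : FiniteDimensional F (AdjoinRoot P) := (AdjoinRoot.powerBasis hP.ne_zero).finite
  have : Finite (AdjoinRoot P) := Module.finite_of_finite F
  let : Fintype (AdjoinRoot P) := Fintype.ofFinite _
  have hF : ringChar F ≠ 2 := fun h => h2 (by
    have := ringChar.Nat.cast_ringChar (R := F)
    rw [h] at this
    exact_mod_cast this)
  have hK : ringChar (AdjoinRoot P) ≠ 2 := by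
    rw [← Algebra.ringChar_eq F (AdjoinRoot P)]
    exact hF
  have hna : Algebra.norm F a ≠ 0 := by
    rw [Ne, Algebra.norm_eq_zero_iff]
    exact ha
  rw [FiniteField.isSquare_iff hK ha, FiniteField.isSquare_iff hF hna]
  have h1 := FiniteField.algebraMap_norm_eq_pow_sum F (AdjoinRoot P) a
  rw [← (algebraMap F (AdjoinRoot P)).injective.eq_iff, map_pow, map_one, h1, ← pow_mul]
  set n := Module.finrank F (AdjoinRoot P) with hn
  have hcard : Fintype.card (AdjoinRoot P) = Fintype.card F ^ n := by
    exact Module.card_eq_pow_finrank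
  have hodd : Fintype.card F % 2 = 1 := FiniteField.odd_card_of_char_ne_two hF
  have h3 : (∑ i ∈ Finset.range n, Nat.card F ^ i) * (Fintype.card F / 2) =
      Fintype.card (AdjoinRoot P) / 2 := by
    rw [hcard, Nat.card_eq_fintype_card]
    have h4 := Nat.geomSum_eq (m := Fintype.card F) (by
      have := Fintype.one_lt_card (α := F); omega) n
    have h5 : (∑ i ∈ Finset.range n, Fintype.card F ^ i) * (Fintype.card F - 1) =
        Fintype.card F ^ n - 1 := by
      have h6 := Nat.geomSum_eq (m := Fintype.card F) (by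
        have := Fintype.one_lt_card (α := F); omega) n
      have h7 : (Fintype.card F - 1) ∣ Fintype.card F ^ n - 1 := by
        simpa using Nat.sub_dvd_pow_sub_pow (Fintype.card F) 1 n
      rw [h6, Nat.div_mul_cancel h7]
    have h8 : Fintype.card F - 1 = 2 * (Fintype.card F / 2) := by omega
    rw [h8] at h5
    have h9 : 2 * ((∑ i ∈ Finset.range n, Fintype.card F ^ i) * (Fintype.card F / 2)) =
        Fintype.card F ^ n - 1 := by
      rw [← h5]; ring
    omega
  rw [h3]

end

theorem s_SY3 (F : Type) [Field F] [Fintype F] : S_SY3 F := by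
  classical
  intro h2 D M hD hM hm hDM
  set d := D.leadingCoeff with hd
  have hd0 : d ≠ 0 := leadingCoeff_ne_zero.2 hD
  set D' : F[X] := D * C d⁻¹ with hD'
  have hD'm : D'.Monic := monic_mul_leadingCoeff_inv hD
  have hDD' : D = C d * D' := by
    rw [hD', mul_comm D, ← mul_assoc, ← C_mul, mul_inv_cancel₀ hd0, C_1, one_mul]
  have hD'M : D' ∣ M := (Dvd.intro_left _ hDD'.symm).trans hDM
  -- the character
  have hsurj := AdjoinRoot.mk_surjective (g := M)
  have hρ : ∀ f g : F[X], AdjoinRoot.mk M f = AdjoinRoot.mk M g → SY3_r D' f = SY3_r D' g := by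
    intro f g h
    apply SY3_r_congr hD'm
    exact hD'M.trans (AdjoinRoot.mk_eq_mk.1 h)
  set s := Function.surjInv hsurj with hs
  have hss : ∀ x, AdjoinRoot.mk M (s x) = x := Function.surjInv_eq hsurj
  let ρ : AdjoinRoot M →* F :=
    { toFun := fun x => SY3_r D' (s x)
      map_one' := by
        rw [hρ (s 1) 1 (by rw [hss, map_one]), SY3_r_one D']
      map_mul' := fun x y => by
        rw [hρ (s (x * y)) (s x * s y) (by rw [map_mul, hss, hss, hss]), SY3_r_mul hD'm] }
  have hρmk : ∀ f, ρ (AdjoinRoot.mk M f) = SY3_r D' f := fun f => hρ _ _ (hss _)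
  let η : F →* ℂ := ((Int.castRingHom ℂ : ℤ →* ℂ)).comp (quadraticChar F).toMonoidHom
  have hη : ∀ a : F, η a = ((quadraticChar F a : ℤ) : ℂ) := fun a => rfl
  set χ₀ : MulChar (AdjoinRoot M) ℂ := MulChar.ofUnitHom (Units.map (η.comp ρ)) with hχ
  have hχu : ∀ x : AdjoinRoot M, IsUnit x → χ₀ x = η (ρ x) := by
    rintro x ⟨u, rfl⟩
    rw [hχ, MulChar.ofUnitHom_coe]
    rfl
  have hηpm : ∀ a : F, a ≠ 0 → η a = 1 ∨ η a = -1 := by
    intro a ha
    rw [hη]
    rcases quadraticChar_dichotomy ha with h | h
    · left; rw [h]; simp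
    · right; rw [h]; simp
  refine ⟨χ₀, η (d * (-1) ^ D.natDegree), ?_, ?_, ?_⟩
  · intro a ha
    rw [hχu a ha]
    apply hηpm
    exact (ha.map ρ).ne_zero
  · apply hηpm
    exact mul_ne_zero hd0 (pow_ne_zero _ (by norm_num))
  · intro P hP hirr hPM
    have hcopM : IsCoprime P M := (hirr.coprime_iff_not_dvd).2 hPM
    have hunit : IsUnit (AdjoinRoot.mk M P) := by
      obtain ⟨u, v, huv⟩ := hcopM
      refine IsUnit.of_mul_eq_one (AdjoinRoot.mk M u) ?_
      have := congrArg (AdjoinRoot.mk M) huv
      rw [map_add, map_mul, map_mul, AdjoinRoot.mk_self, mul_zero, add_zero, map_one] at this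
      rw [mul_comm]; exact this
    have hPD : ¬ P ∣ D := fun h => hPM (h.trans hDM)
    have ha : AdjoinRoot.mk P D ≠ 0 := fun h => hPD (AdjoinRoot.mk_eq_zero.1 h)
    have key : cc χ₀ (η (d * (-1) ^ D.natDegree)) P = η (Algebra.norm F (AdjoinRoot.mk P D)) := by
      rw [← SY3_norm hP hirr]
      have e1 : resultant P D P.natDegree D.natDegree =
          (d * (-1) ^ D.natDegree) ^ P.natDegree * SY3_r D' P := by
        have e2 : D'.natDegree = D.natDegree := by
          rw [hD']
          exact natDegree_mul_C (inv_ne_zero hd0)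
        conv_lhs => rw [hDD']
        rw [resultant_C_mul_right, natDegree_C_mul hd0, resultant_comm]
        unfold SY3_r
        rw [mul_pow, ← pow_mul, e2, mul_comm D.natDegree]
        ring
      rw [e1]
      unfold cc dir
      rw [hχu _ hunit, hρmk, ← map_pow, ← map_mul]
    have : Fact (Irreducible P) := ⟨hirr⟩
    have : FiniteDimensional F (AdjoinRoot P) := (AdjoinRoot.powerBasis hP.ne_zero).finite
    have hna : Algebra.norm F (AdjoinRoot.mk P D) ≠ 0 := by
      rw [Ne, Algebra.norm_eq_zero_iff]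
      exact ha
    constructor
    · intro hsq
      rw [key, hη, (quadraticChar_one_iff_isSquare hna).2 ((SY3_square h2 hP hirr ha).1 hsq)]
      simp
    · intro hsq
      rw [key, hη, quadraticChar_neg_one_iff_not_isSquare.2
        (fun h => hsq ((SY3_square h2 hP hirr ha).2 h))]
      simp

end Pool.RN
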